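import Pool.Agent.L0h7.MS.Stm

/-! # Module NBH of project MS: a finitely presented group has a neighbourhood of quotients -/

set_option autoImplicit false

open Function

namespace Pool.Agent.L0h57.MS

open Pool.Agent.L0h7.MS

theorem t_NBH (h : S_KFN) : S_NBH := by
  intro r K hK hfp
  have hfg : Group.FG (FreeGroup (Fin r)) := inferInstance
  have h1 := h (FreeGroup (Fin r)) (FreeGroup (Fin r) ⧸ K) hfg hfp (QuotientGroup.mk' K)
    (QuotientGroup.mk'_surjective K)
  rw [QuotientGroup.ker_mk'] at h1
  obtain ⟨T, hT, hTK⟩ := h1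
  refine ⟨hT.toFinset, fun s hs => ?_, fun K' hK' hs => ?_⟩
  · rw [Set.Finite.mem_toFinset] at hs
    rw [← hTK]
    exact Subgroup.subset_normalClosure hs
  · rw [← hTK]
    have := hK'
    refine Subgroup.normalClosure_le_normal fun s hsT => ?_
    exact hs s (by rw [Set.Finite.mem_toFinset]; exact hsT)

end Pool.Agent.L0h57.MS
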